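import Pool.Agent.H92.MR.Main
import Pool.Agent.H91.L.W5h93_EX_PrimeDefs

/-!
# Schemes built from matroid strata: definitions
-/

set_option autoImplicit false

open CategoryTheory AlgebraicGeometry MvPolynomial Pool.Agent.Y116.UV Pool.Agent.W5h93.EV
  Pool.Agent.W5h93.EX Pool.Agent.W5h77.MR

namespace Pool.Agent.H92.MS

/-- The class of the schemes which are **made from the schemes in `S`**: the smallest class of schemes
over `k` which contains the schemes in `S` (`mem`), is closed under isomorphisms, and has the following
properties.

* If two of `X`, `Z`, `U` are in the class, then the third is in the class, for a closed subscheme `Z` of a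
  separated scheme `X` of finite type and its complement `U` (`total`, `opened`, `closed`).
* If `Spec A × 𝔾_m` is in the class, then `Spec A` is in the class (`torus`). -/
inductive Made {k : Type} [Field k] (S : Set (Sch k)) : Sch k → Prop
  | mem (X : Sch k) : X ∈ S → Made S X
  | iso (X Y : Sch k) : FT True X → Nonempty (X ≅ Y) → Made S X → Made S Y
  | total (Z X U : Sch k) (i : Z ⟶ X) (j : U ⟶ X) : FT True X → Decomp i j → Made S Z →
      Made S U → Made S X
  | opened (Z X U : Sch k) (i : Z ⟶ X) (j : U ⟶ X) : FT True X → Decomp i j → Made S Z →
      Made S X → Made S U
  | closed (Z X U : Sch k) (i : Z ⟶ X) (j : U ⟶ X) : FT True X → Decomp i j → Made S X →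
      Made S U → Made S Z
  | torus (A : Type) [CommRing A] [Algebra k A] [Algebra.FiniteType k A] :
      Made S (aff k (LaurentPolynomial A)) → Made S (aff k A)

/-- the matroid strata in the list `F`: the locally closed subschemes of the spaces of matrices with
three rows where the maximal minors of `(I | M)` in a given set are invertible and the others vanish -/
def Cells (k : Type) [Field k] (F : Finset (Σ m : ℕ, Finset (Trp m))) : Set (Sch k) :=
  {Y | ∃ S ∈ F, Y = cellS k S.1 S.2}

/-- the open subschemes of the spaces of matrices with three rows in the list `F`, where the maximal
minors of `(I | M)` in a given set are invertible -/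
def Opens (k : Type) [Field k] (F : Finset (Σ m : ℕ, Finset (Trp m))) : Set (Sch k) :=
  {Y | ∃ S ∈ F, Y = openS k S.1 S.2}

/-- **Every separated scheme of finite type over `k` is made from finitely many matroid strata**, and
also from finitely many complements of determinantal arrangements. -/
def MadeFromStrata (k : Type) [Field k] : Prop :=
  ∀ X : Sch k, FT True X → (∃ F, Made (Cells k F) X) ∧ ∃ F, Made (Opens k F) X

/-- **The reduction to matroid strata** of the property `C` of the schemes of the class `Q`. The
property `P` extends `C` to all separated schemes of finite type.

If all integral schemes of finite type over `k` have birational models in the class, then `C` for all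
schemes of the class is equivalent to `P` for all matroid strata `cellS k m S`, and also to `P` for all
complements `openS k m S` of determinantal arrangements. If the scheme `X` in the class is made from the
schemes in the set `S`, then `P` for the schemes in `S` implies `C` for `X`. -/
structure StrataReduce {k : Type} [Field k] (Q C P : Sch k → Prop) : Prop where
  cell : (∀ n, ModelsIn Q n) →
    ((∀ X, Q X → C X) ↔ ∀ (m : ℕ) (S : Finset (Trp m)), P (cellS k m S))
  opened : (∀ n, ModelsIn Q n) →
    ((∀ X, Q X → C X) ↔ ∀ (m : ℕ) (S : Finset (Trp m)), P (openS k m S))
  of_made : ∀ (S : Set (Sch k)) (X : Sch k), Q X → Made S X → (∀ Y ∈ S, P Y) → C X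

end Pool.Agent.H92.MS
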