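import Pool.Agent.H92.MR.Main
import Pool.Agent.H91.L.W5h93_EX_PrimeDefs

/-!
# Presentations by sums of at most three monomials over the prime fields
-/

set_option autoImplicit false

open MvPolynomial Pool.Agent.Y116.UV Pool.Agent.Q282.UZ Pool.Agent.W5h93.EX

namespace Pool.Agent.H92.MS

variable {R : Type} [CommRing R]

lemma reach_int (n : ℕ) (f : MvPolynomial (Fin n) ℤ) :
    map (Int.castRingHom R) f ∈ Reach (base R n) := by
  have hm := base_neg (R := R) n
  have h1 : (1 : MvPolynomial (Fin n) R) ∈ Reach (base R n) := by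
    have := reach_mul hm (reach_mark hm) (reach_mark hm)
    rwa [neg_mul_neg, one_mul] at this
  have h0 : (0 : MvPolynomial (Fin n) R) ∈ Reach (base R n) := by
    have := reach_add hm h1 (reach_mark hm)
    rwa [add_neg_cancel] at this
  have hz : ∀ k : ℤ, ((k : ℤ) : MvPolynomial (Fin n) R) ∈ Reach (base R n) := by
    intro k
    induction k using Int.induction_on with
    | zero => rwa [Int.cast_zero]
    | succ k hk =>
      rw [Int.cast_add, Int.cast_one]
      exact reach_add hm hk h1
    | pred k hk =>
      rw [Int.cast_sub, Int.cast_one, sub_eq_add_neg]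
      exact reach_add hm hk (reach_mark hm)
  induction f using MvPolynomial.induction_on with
  | C r =>
    have := hz r
    rw [map_C]
    rwa [← map_intCast (C : R →+* MvPolynomial (Fin n) R)] at this
  | add p q hp hq =>
    rw [map_add]
    exact reach_add hm hp hq
  | mul_X p i hp =>
    rw [map_mul, map_X]
    refine reach_mul hm hp (reach_mark ⟨some i, ?_⟩)
    change aeval _ (X (some i)) = _
    rw [aeval_X]
    rfl

/-- up to a unit the polynomial has integral coefficients -/
def UpToUnit {n : ℕ} (f : MvPolynomial (Fin n) R) : Prop :=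
  ∃ (c : R) (g : MvPolynomial (Fin n) ℤ), IsUnit c ∧ C c * f = map (Int.castRingHom R) g

lemma reach_list (n : ℕ) (F : Finset (MvPolynomial (Fin n) ℤ)) :
    ∃ P : SP R (MvPolynomial (Fin n) R), (base R n).marks ⊆ P.marks ∧
      ∀ f ∈ F, map (Int.castRingHom R) f ∈ P.marks := by
  classical
  induction F using Finset.induction_on with
  | empty => exact ⟨base R n, le_rfl, by simp⟩
  | insert f F _ ih =>
    obtain ⟨P, h1, h2⟩ := ih
    obtain ⟨P', h3, h4⟩ := reach_int (R := R) n f P h1
    refine ⟨P', h1.trans h3, fun g hg => ?_⟩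
    rcases Finset.mem_insert.mp hg with rfl | hg
    · exact h4
    · exact h3 (h2 g hg)

theorem short_of_unit [IsNoetherianRing R]
    (hR : ∀ (n : ℕ) (f : MvPolynomial (Fin n) R), UpToUnit f) : ShortPresents R := by
  classical
  intro A _ _ _
  obtain ⟨n, π, hπ⟩ := Algebra.FiniteType.iff_quotient_mvPolynomial''.mp
    (inferInstance : Algebra.FiniteType R A)
  obtain ⟨F, hF⟩ := (isNoetherianRing_iff_ideal_fg _).mp
    (inferInstance : IsNoetherianRing (MvPolynomial (Fin n) R)) (RingHom.ker π)
  choose c g hc hg using hR n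
  obtain ⟨P, hP0, hP⟩ := reach_list (R := R) n (F.image g)
  have hne : Nonempty P.V := by
    obtain ⟨v, _⟩ := hP0 (base_neg n)
    exact ⟨v⟩
  have hP' : ∀ f ∈ F, C (c f) * f ∈ P.marks := fun f hf => by
    rw [hg f]
    exact hP _ (Finset.mem_image_of_mem _ hf)
  choose! v hv using hP'
  have hF' : Ideal.span ((fun f => C (c f) * f) '' (F : Set (MvPolynomial (Fin n) R))) =
      RingHom.ker π := by
    rw [← hF]
    apply le_antisymm
    · rw [Ideal.span_le]
      rintro _ ⟨f, hf, rfl⟩
      exact Ideal.mul_mem_left _ _ (Ideal.subset_span hf)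
    · rw [Ideal.span_le]
      intro f hf
      obtain ⟨d, hd⟩ := (hc f).exists_left_inv
      have h1 : f = C d * (C (c f) * f) := by
        rw [← mul_assoc, ← C_mul, hd, C_1, one_mul]
      rw [SetLike.mem_coe, h1]
      exact Ideal.mul_mem_left _ _ (Ideal.subset_span ⟨f, hf, rfl⟩)
  let Q : SP R A :=
    { V := P.V
      fin := P.fin
      φ := π.comp P.φ
      G := P.G ∪ (fun f => X (v f)) '' (F : Set (MvPolynomial (Fin n) R))
      finG := P.finG.union (F.finite_toSet.image _)
      surj := fun a => by
        obtain ⟨b, rfl⟩ := hπ a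
        obtain ⟨c, rfl⟩ := P.surj b
        exact ⟨c, rfl⟩
      ker := by
        have h1 : RingHom.ker (π.comp P.φ) = Ideal.comap (P.φ : MvPolynomial P.V R →+* _)
            (RingHom.ker π) := rfl
        have h2 : RingHom.ker π = Ideal.map (P.φ : MvPolynomial P.V R →+* _)
            (Ideal.span ((fun f => X (v f)) '' (F : Set (MvPolynomial (Fin n) R)))) := by
          rw [Ideal.map_span, ← hF', Set.image_image]
          congr 1
          ext x
          constructor
          · rintro ⟨y, hy, rfl⟩
            exact ⟨y, hy, hv y hy⟩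
          · rintro ⟨y, hy, rfl⟩
            exact ⟨y, hy, (hv y hy).symm⟩
        have h3 : RingHom.ker (P.φ : MvPolynomial P.V R →+* MvPolynomial (Fin n) R) =
            Ideal.span P.G := P.ker
        rw [h1, h2, Ideal.comap_map_of_surjective'
          (P.φ : MvPolynomial P.V R →+* MvPolynomial (Fin n) R) P.surj, Ideal.span_union, sup_comm,
          h3]
      short := by
        rintro g (hg | ⟨f, _, rfl⟩)
        · exact P.short g hg
        · refine ⟨{Finsupp.single (v f) 1}, by simp, ?_⟩
          rw [ms, Finset.sum_singleton]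
          rfl }
  exact Q.toFin

/-- **Over a prime field every algebra of finite type has a presentation by sums of at most three
monomials.** -/
theorem short_prime {k : Type} [Field k] (hk : IsPrimeField k) : ShortPresents k := by
  classical
  refine short_of_unit fun n f => ?_
  choose a b hb hab using hk
  let N : ℤ := ∏ m ∈ f.support, b (coeff m f)
  have hN : ∀ m, ∃ z : ℤ, (z : k) = N * coeff m f := by
    intro m
    by_cases hm : m ∈ f.support
    · obtain ⟨r, hr⟩ : b (coeff m f) ∣ N := Finset.dvd_prod_of_mem (fun m => b (coeff m f)) hm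
      refine ⟨r * a (coeff m f), ?_⟩
      rw [hr]
      push_cast
      rw [← hab (coeff m f)]
      ring
    · refine ⟨0, ?_⟩
      rw [notMem_support_iff.mp hm, mul_zero, Int.cast_zero]
  choose z hz using hN
  refine ⟨(N : k), ∑ m ∈ f.support, monomial m (z m), isUnit_iff_ne_zero.mpr ?_, ?_⟩
  · rw [Int.cast_prod]
    exact Finset.prod_ne_zero_iff.mpr fun m _ => hb _
  · rw [map_sum]
    conv_lhs => rw [f.as_sum]
    rw [Finset.mul_sum]
    refine Finset.sum_congr rfl fun m _ => ?_
    rw [map_monomial, C_mul_monomial, ← hz m]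
    rfl

end Pool.Agent.H92.MS
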