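import Pool.Agent.H92.MS.Defs
import Pool.Agent.H92.MS.Short
import Pool.Agent.H91.L.W5h93_WC_Main
import Pool.Agent.H89.L.W5h93_EU_Fin

/-!
# Matroid strata and classes of smooth projective varieties
-/

set_option autoImplicit false
set_option linter.unusedSectionVars false

open CategoryTheory Limits Pretriangulated MonoidalCategory AlgebraicGeometry MvPolynomial
  Pool.Agent.Y116.UV Pool.Agent.Z125.UN Pool.Agent.W5h93.EV Pool.Agent.W5h93.EX
  Pool.Agent.W5h93.WC Pool.Agent.W5h77.MR Pool.Agent.Q282.UK Pool.Agent.Q282.UZ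

universe v u

namespace Pool.Agent.H92.MS

section made

variable {k : Type} [Field k]

/-- The properties with the closure properties. -/
structure CloC (P : Sch k → Prop) : Prop extends Clo True P where
  closed : ClosedRule True P

lemma cloC_of_bnd {P : Sch k → Prop} (hP : Bnd True P) : CloC P where
  iso hX e h := hP.iso hX e h
  total i j hX ht h1 h2 := hP.total i j hX ht h1 h2
  opened i j hX ht h1 h2 := hP.opened i j hX ht h1 h2
  torus A _ _ _ h := hP.torus A h
  closed i j hX ht h1 h2 := hP.closed i j hX ht h1 h2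

/-- The class has the closure properties. -/
theorem cloC_made (S : Set (Sch k)) : CloC (Made S) where
  iso {X Y} hX e h := .iso X Y hX e h
  total {Z X U} i j hX ht h1 h2 := .total Z X U i j hX ⟨ht.closed, ht.opened, ht.compl⟩ h1 h2
  opened {Z X U} i j hX ht h1 h2 := .opened Z X U i j hX ⟨ht.closed, ht.opened, ht.compl⟩ h1 h2
  closed {Z X U} i j hX ht h1 h2 := .closed Z X U i j hX ⟨ht.closed, ht.opened, ht.compl⟩ h1 h2
  torus A _ _ _ h := .torus A h

/-- The properties with the closure properties which are true for the schemes in `S` are true for the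
schemes made from them. -/
theorem of_made {P : Sch k → Prop} (hP : CloC P) {S : Set (Sch k)} (h : ∀ X ∈ S, P X)
    (X : Sch k) (hX : Made S X) : P X := by
  induction hX with
  | mem X h1 => exact h X h1
  | iso X Y h1 h2 _ ih => exact hP.iso h1 h2 ih
  | total Z X U i j h1 h2 _ _ ih1 ih2 => exact hP.total i j h1 ⟨h2.1, h2.2.1, h2.2.2⟩ ih1 ih2
  | opened Z X U i j h1 h2 _ _ ih1 ih2 => exact hP.opened i j h1 ⟨h2.1, h2.2.1, h2.2.2⟩ ih1 ih2
  | closed Z X U i j h1 h2 _ _ ih1 ih2 => exact hP.closed i j h1 ⟨h2.1, h2.2.1, h2.2.2⟩ ih1 ih2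
  | torus A _ ih => exact hP.torus A ih

lemma Made.mono {S T : Set (Sch k)} (h : S ⊆ T) {X : Sch k} (hX : Made S X) : Made T X :=
  of_made (cloC_made T) (fun Y hY => .mem Y (h hY)) X hX

/-- The closure properties of the union over the finite lists. -/
theorem cloC_fin {ι : Type} (G : Finset ι → Set (Sch k))
    (hG : ∀ F F', F ⊆ F' → G F ⊆ G F') : CloC fun X : Sch k => ∃ F : Finset ι, Made (G F) X := by
  classical
  have h2 : ∀ {A B : Sch k}, (∃ F : Finset ι, Made (G F) A) → (∃ F : Finset ι, Made (G F) B) →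
      ∃ F : Finset ι, Made (G F) A ∧ Made (G F) B := by
    rintro A B ⟨F, h⟩ ⟨F', h'⟩
    exact ⟨F ∪ F', h.mono (hG _ _ Finset.subset_union_left),
      h'.mono (hG _ _ Finset.subset_union_right)⟩
  exact
    { iso := fun {X Y} hX e => fun ⟨F, h⟩ => ⟨F, .iso X Y hX e h⟩
      total := fun {Z X U} i j hX ht h h' => by
        obtain ⟨F, h3, h4⟩ := h2 h h'
        exact ⟨F, (cloC_made _).total i j hX ht h3 h4⟩
      opened := fun {Z X U} i j hX ht h h' => by
        obtain ⟨F, h3, h4⟩ := h2 h h'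
        exact ⟨F, (cloC_made _).opened i j hX ht h3 h4⟩
      closed := fun {Z X U} i j hX ht h h' => by
        obtain ⟨F, h3, h4⟩ := h2 h h'
        exact ⟨F, (cloC_made _).closed i j hX ht h3 h4⟩
      torus := fun A _ _ _ => fun ⟨F, h⟩ => ⟨F, .torus A h⟩ }

/-- **Every scheme over a prime field is made from finitely many matroid strata.** -/
theorem madeFromStrata (hk : IsPrimeField k) : MadeFromStrata k := by
  classical
  intro X hX
  constructor
  · have hC := cloC_fin (Cells k) fun F F' h => by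
      rintro Y ⟨Z, hZ, rfl⟩
      exact ⟨Z, h hZ, rfl⟩
    have h1 : (∀ (m : ℕ) (S : Finset (Trp m)), ∃ F, Made (Cells k F) (cellS k m S)) →
        ∀ X : Sch k, FT True X → ∃ F, Made (Cells k F) X :=
      ((all_iff (short_prime hk) hC.toClo hC.closed).out 2 0).mp
    exact h1 (fun m S => ⟨{⟨m, S⟩}, .mem _ ⟨⟨m, S⟩, Finset.mem_singleton_self _, rfl⟩⟩) X hX
  · have hC := cloC_fin (Opens k) fun F F' h => by
      rintro Y ⟨Z, hZ, rfl⟩
      exact ⟨Z, h hZ, rfl⟩
    have h1 : (∀ (m : ℕ) (S : Finset (Trp m)), ∃ F, Made (Opens k F) (openS k m S)) →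
        ∀ X : Sch k, FT True X → ∃ F, Made (Opens k F) X :=
      ((all_iff (short_prime hk) hC.toClo hC.closed).out 1 0).mp
    exact h1 (fun m S => ⟨{⟨m, S⟩}, .mem _ ⟨⟨m, S⟩, Finset.mem_singleton_self _, rfl⟩⟩) X hX

end made

section reduction

variable {k : Type} [Field k] [PerfectField k] {Q C P : Sch k → Prop}

/-- from the class to all schemes -/
theorem all_of_class (hP : Bnd True P) (hQ : IsClass Q) (h : ∀ X, Q X → (C X ↔ P X))
    (hM : ∀ n, ModelsIn Q n) (h1 : ∀ X, Q X → C X) (X : Sch k) (hX : FT True X) : P X := by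
  obtain ⟨n, hn⟩ := Pool.Agent.W5h93.EU.dim_finite X hX
  exact devissage hP hQ (hM n) (fun Y hY _ => (h Y hY).mp (h1 Y hY)) X hX hn

/-- **The reduction to matroid strata.** -/
theorem strataReduce (hk : IsPrimeField k) (hP : Bnd True P) (hQ : IsClass Q)
    (h : ∀ X, Q X → (C X ↔ P X)) : StrataReduce Q C P := by
  have hC := cloC_of_bnd hP
  have h2 := all_iff (short_prime hk) hC.toClo hC.closed
  have h3 : (∀ n, ModelsIn Q n) → ((∀ X, Q X → C X) ↔ ∀ X : Sch k, FT True X → P X) := fun hM =>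
    ⟨all_of_class hP hQ h hM, fun h4 X hX => (h X hX).mpr (h4 X (hQ.ft hX))⟩
  exact
    { cell := fun hM => (h3 hM).trans (h2.out 0 2)
      opened := fun hM => (h3 hM).trans (h2.out 0 1)
      of_made := fun S X hX hS h1 => (h X hX).mpr (of_made hC h1 X hS) }

end reduction

section wc

variable {k : Type} [Field k] {𝒜 : Type u} [Category.{v} 𝒜] [Preadditive 𝒜] [HasZeroObject 𝒜]
  [HasBinaryBiproducts 𝒜] [MonoidalCategory 𝒜] [MonoidalPreadditive 𝒜] {T : ℤ → 𝒜}
  {W : Sch k → HomotopyCategory 𝒜 (ComplexShape.up ℤ)} {V : Cls 𝒜}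

/-- **The reduction to matroid strata, for any class of motives closed under sums, retracts and Tate
twists.** -/
theorem strataReduce_wc [PerfectField k] (hk : IsPrimeField k)
    (hT : ∀ (j : ℤ) (A : 𝒜), V.prop A → V.prop (A ⊗ T j)) (h0 : V.prop (T 0))
    (hW : IsWeightComplex T W) {Q : Sch k → Prop} (hQ : IsClass Q)
    (h : Sch k → 𝒜) (hh : ∀ X, Q X → Nonempty (W X ≅ cpx (h X))) :
    StrataReduce Q (fun X => V.prop (h X)) (fun X => Null V.prop (W X).as) :=
  strataReduce hk (bnd_wc hT h0 hW) hQ fun X hX => by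
    obtain ⟨e⟩ := hh X hX
    rw [← null_cpx]
    exact ⟨fun h1 => h1.of_iso e.symm, fun h1 => h1.of_iso e⟩

end wc

end Pool.Agent.H92.MS
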